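import Pool.Agent.W411.NL.Thm
import Pool.Agent.W263.MN.EQ

/-!
# Vanishing of `L(E, 1)` and boundedness of means of point counts

Let `E : y² = x³ + a x + b` be an elliptic curve over `ℚ`, `a, b ∈ ℤ`, with entire `L`-function `F` (Euler
factors at the primes dividing `2Δ` removed), of order `r` at `s = 1`, and let

  `Ψ_k(x) = ∑_{p^j ≤ x} (1 - log p^j / log x)^k (α_p^j + β_p^j) log p / p^j`.

If `L(E, 1) ≠ 0` and the Riemann hypothesis holds for `F`, then these means converge for `k ≥ 3`, and the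
limit is `-F'(1)/F(1)`, which is `½ log N - log 2π - γ` up to the factors at the primes dividing `2Δ`.  It is
shown that convergence is not needed: a LOWER bound `Ψ_k(x) ≥ -C` for one `k` implies `L(E, 1) ≠ 0`, the
Riemann hypothesis and the convergence of the means to this value.  The same holds for every `r`, with
the main term `-(r/(k+1)) log x`.  If `L(E, 1) = 0`, then all means are unbounded below, unconditionally.

The proof uses Hasse's bound, Landau's lemma, Karamata's theorem, the theorem of Borel and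
Caratheodory and Laplace inversion; everything is proved in the imported files.
-/

set_option autoImplicit false

namespace Pool.Agent.Results.MP_8b7eba_nt.BoundedMeans

open Pool.Agent.W263.BSD (pointCount GoodPrime IsLSeries order_finite)
open Pool.Agent.W263.MN (primePowerMean powerSum aP)
open Filter Topology

/-- The rational points of `y² = x³ + a x + b` in the affine plane. -/
def ratPoints (a b : ℤ) : Set (ℚ × ℚ) :=
  {q : ℚ × ℚ | q.2 ^ 2 = q.1 ^ 3 + (a : ℚ) * q.1 + (b : ℚ)}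

/-- `F'/F` grows at most polynomially in `|s|` and `1/(Re s - 1)` in the strip `1 < Re s ≤ 2`. -/
def LogDerivBound (F : ℂ → ℂ) : Prop :=
  ∃ (C : ℝ) (A : ℕ), ∀ s : ℂ, 1 < s.re → s.re ≤ 2 →
    ‖deriv F s / F s‖ ≤ C * ((1 + ‖s‖) / (s.re - 1)) ^ A

/-- `F` grows at most polynomially in `Re s > 1`. -/
def PolyGrowth (F : ℂ → ℂ) : Prop :=
  ∃ (C : ℝ) (A : ℕ), ∀ s : ℂ, 1 < s.re → ‖F s‖ ≤ C * (1 + ‖s‖) ^ A

/-- `F` has no zeros with `Re s > 1` (the Riemann hypothesis, by the functional equation). -/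
def RH (F : ℂ → ℂ) : Prop := ∀ s : ℂ, 1 < s.re → F s ≠ 0

/-- `N^{s/2} (2π)^{-s} Γ(s) B(s) F(s)`. -/
noncomputable def completed (N : ℝ) (B F : ℂ → ℂ) (s : ℂ) : ℂ :=
  (N : ℂ) ^ (s / 2) * (2 * Real.pi : ℂ) ^ (-s) * Complex.Gamma s * B s * F s

/-- **Bounded means and `L(E, 1) ≠ 0`.** -/
theorem result (a b : ℤ) (hΔ : 4 * a ^ 3 + 27 * b ^ 2 ≠ 0) (F : ℂ → ℂ) (hF : IsLSeries a b F) :
    ∃ (r : ℕ) (c : ℝ), analyticOrderAt F 1 = r ∧
      Tendsto (fun s : ℂ => deriv F s / F s - r / (s - 1)) (𝓝[≠] 1) (𝓝 (-c : ℂ)) ∧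
      -- the value of `c` if there is a functional equation
      (∀ (N : ℝ) (ε : ℂ) (B : ℂ → ℂ), 0 < N → AnalyticAt ℂ B 1 → B 1 ≠ 0 →
        (∀ᶠ s in 𝓝 (1 : ℂ), completed N B F s = ε * completed N B F (2 - s)) →
        (c : ℂ) = ((1 / 2 * Real.log N - Real.log (2 * Real.pi) -
          Real.eulerMascheroniConstant : ℝ) : ℂ) + deriv B 1 / B 1) ∧
      -- nonvanishing at `s = 1`
      List.TFAE [
        ∃ (k : ℕ) (C : ℝ), ∀ᶠ x : ℝ in atTop, -C ≤ primePowerMean a b k x,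
        F 1 ≠ 0 ∧ (∀ s : ℝ, 1 < s → F s ≠ 0) ∧
          ∃ (k : ℕ) (C : ℝ), ∀ᶠ x : ℝ in atTop, primePowerMean a b k x ≤ C,
        ∃ (k : ℕ) (c' : ℝ), Tendsto (primePowerMean a b k) atTop (𝓝 c'),
        F 1 ≠ 0 ∧ ∃ k : ℕ, Tendsto (primePowerMean a b k) atTop (𝓝 c),
        F 1 ≠ 0 ∧ RH F ∧ LogDerivBound F] ∧
      -- arbitrary order
      List.TFAE [
        ∃ (k : ℕ) (C : ℝ), ∀ᶠ x : ℝ in atTop, -C ≤ primePowerMean a b k x + r / (k + 1) * Real.log x,
        (∀ s : ℝ, 1 < s → F s ≠ 0) ∧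
          ∃ (k : ℕ) (C : ℝ), ∀ᶠ x : ℝ in atTop,
            primePowerMean a b k x + r / (k + 1) * Real.log x ≤ C,
        ∃ k : ℕ, Tendsto (fun x => primePowerMean a b k x + r / (k + 1) * Real.log x) atTop (𝓝 c),
        ∃ (k : ℕ) (ρ c' : ℝ),
          Tendsto (fun x => primePowerMean a b k x + ρ / (k + 1) * Real.log x) atTop (𝓝 c'),
        RH F ∧ LogDerivBound F] ∧
      -- polynomial growth, known for `L(E, s)` by modularity
      (PolyGrowth F →
        (RH F ↔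
          Tendsto (fun x => primePowerMean a b 3 x + r / 4 * Real.log x) atTop (𝓝 c)) ∧
        List.TFAE [
          F 1 ≠ 0 ∧ RH F,
          ∃ C : ℝ, ∀ᶠ x : ℝ in atTop, -C ≤ primePowerMean a b 2 x,
          ∃ c' : ℝ, Tendsto (primePowerMean a b 3) atTop (𝓝 c'),
          F 1 ≠ 0 ∧ Tendsto (primePowerMean a b 3) atTop (𝓝 c)] ∧
        (RH F ∧ (F 1 = 0 ↔ (ratPoints a b).Infinite) ↔
          (∃ C : ℝ, ∀ᶠ x : ℝ in atTop, -(C * Real.log x) ≤ primePowerMean a b 2 x) ∧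
          ((∃ C : ℝ, ∀ᶠ x : ℝ in atTop, -C ≤ primePowerMean a b 2 x) ↔ (ratPoints a b).Finite))) ∧
      -- unconditional statements
      (F 1 = 0 → ∀ (k : ℕ) (C : ℝ), ∃ᶠ x : ℝ in atTop, primePowerMean a b k x < C) ∧
      (∀ (k : ℕ) (ε : ℝ), 0 < ε →
        ∃ᶠ x : ℝ in atTop, primePowerMean a b k x + r / (k + 1) * Real.log x < c + ε) ∧
      ((∀ s : ℝ, 1 < s → F s ≠ 0) → ∀ (k : ℕ) (ε : ℝ), 0 < ε →
        ∃ᶠ x : ℝ in atTop, c - ε < primePowerMean a b k x + r / (k + 1) * Real.log x) := by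
  obtain ⟨r, hr⟩ := order_finite hF
  have hfin := Pool.Agent.W263.MN.bad_finite hΔ
  obtain ⟨Bs, hBs⟩ : ∃ Bs : Finset Nat.Primes, ∀ p : Nat.Primes,
      p ∈ Bs ↔ ¬ GoodPrime a b (p : ℕ) := ⟨hfin.toFinset, fun p => by
    rw [Set.Finite.mem_toFinset]; rfl⟩
  have E := Pool.Agent.W263.MN.eq_tdata hBs
  have e1 : ((1 : ℝ) + 1) / 2 = 1 := by norm_num
  have e2 : ((1 : ℝ) + 2) / 2 = 3 / 2 := by norm_num
  have he : ∀ s : ℂ, ((1 : ℝ) + 2) / 2 < s.re → F s = Pool.Agent.W263.EP.LF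
      Pool.Agent.W263.EP.sysQ (Bs : Set Nat.Primes)
      (Pool.Agent.W263.EP.abTr (Pool.Agent.W263.MN.AA a b)) s := by
    intro s hs
    rw [e2] at hs
    rw [Pool.Agent.W263.MN.LFB_EQ hBs hF hs]
    exact Pool.Agent.W411.NL.LFB_one s
  have hd : ∀ s : ℂ, ((1 : ℝ) + 1) / 2 < s.re → DifferentiableAt ℂ F s := fun s _ => hF.1 s
  have hC : Pool.Agent.W263.EP.IsCont Pool.Agent.W263.EP.sysQ (Bs : Set Nat.Primes)
      (Pool.Agent.W263.EP.abTr (Pool.Agent.W263.MN.AA a b)) 1 F :=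
    ⟨fun s _ => hF.1.analyticAt _, fun s hs => he s (by simpa using hs)⟩
  have hm : MeromorphicAt F ((((1 : ℝ) + 1) / 2 : ℝ) : ℂ) := (hF.1.analyticAt _).meromorphicAt
  have hn : meromorphicOrderAt F ((((1 : ℝ) + 1) / 2 : ℝ) : ℂ) = ((r : ℤ) : WithTop ℤ) := by
    rw [e1, Complex.ofReal_one, (hF.1.analyticAt _).meromorphicOrderAt_eq, hr]
    rfl
  obtain ⟨c, hc1, hc2⟩ := Pool.Agent.W411.NL.llim_of_mero hm hn
    (Pool.Agent.W411.NL.im_zero_ev E hC)
  have hcast : ((r : ℤ) : ℝ) = (r : ℝ) := by push_cast; rfl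
  have hZ : ∀ k, Pool.Agent.W263.MN.ZK Pool.Agent.W263.EP.sysQ (Bs : Set Nat.Primes)
      (Pool.Agent.W263.EP.abTr (Pool.Agent.W263.MN.AA a b)) 1 k = primePowerMean a b k := fun k =>
    funext fun x => Pool.Agent.W263.MN.ZK_EQ hBs k x
  have hM : ∀ (ρ : ℝ) (k : ℕ), Pool.Agent.W411.NL.MZ Pool.Agent.W263.EP.sysQ
      (Bs : Set Nat.Primes) (Pool.Agent.W263.EP.abTr (Pool.Agent.W263.MN.AA a b)) 1 ρ k =
      fun x => primePowerMean a b k x + ρ / (k + 1) * Real.log x := fun ρ k => by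
    funext x
    unfold Pool.Agent.W411.NL.MZ
    rw [hZ]
  have hr0 : (r : ℤ) = 0 ↔ F 1 ≠ 0 := by
    rw [← (hF.1.analyticAt 1).analyticOrderAt_eq_zero, hr]
    norm_cast
  have hRH : (∀ s : ℂ, ((1 : ℝ) + 1) / 2 < s.re → F s ≠ 0) ↔ RH F := by rw [e1]; rfl
  have hre : ∀ P : Prop, ((∀ s : ℝ, ((1 : ℝ) + 1) / 2 < s → F s ≠ 0) ∧ P) ↔
      ((∀ s : ℝ, 1 < s → F s ≠ 0) ∧ P) := by
    intro P
    rw [e1]
  have hfull : (∃ G : ℂ → ℂ, Pool.Agent.W263.EP.IsFull Pool.Agent.W263.EP.sysQ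
      (Bs : Set Nat.Primes) (Pool.Agent.W263.EP.abTr (Pool.Agent.W263.MN.AA a b)) 1 G ∧
      Pool.Agent.W263.MN.LDB (((1 : ℝ) + 1) / 2) G) ↔ RH F ∧ LogDerivBound F := by
    constructor
    · rintro ⟨G, hG, C, A, hC⟩
      have hopen : IsOpen {s : ℂ | ((1 : ℝ) + 1) / 2 < s.re} := Pool.Agent.W263.BSD.isOpen_half _
      have h1 : AnalyticOnNhd ℂ F {s : ℂ | ((1 : ℝ) + 1) / 2 < s.re} := fun s _ =>
        hF.1.analyticAt s
      have h2 : AnalyticOnNhd ℂ G {s : ℂ | ((1 : ℝ) + 1) / 2 < s.re} := hG.1.analyticOnNhd hopen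
      have h3 := h1.eqOn_of_preconnected_of_eventuallyEq h2 (Pool.Agent.W263.BSD.preconn_half _)
        (show ((2 : ℝ) : ℂ) ∈ {s : ℂ | ((1 : ℝ) + 1) / 2 < s.re} by
          show ((1 : ℝ) + 1) / 2 < ((2 : ℝ) : ℂ).re
          rw [Complex.ofReal_re]; norm_num) (by
          filter_upwards [(Pool.Agent.W263.BSD.isOpen_half (((1 : ℝ) + 2) / 2)).mem_nhds
            (show ((1 : ℝ) + 2) / 2 < ((2 : ℝ) : ℂ).re by
              rw [Complex.ofReal_re]; norm_num)] with z hz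
          rw [he z hz, hG.2.2 z hz])
      refine ⟨fun s hs => ?_, C, A, fun s hs hs2 => ?_⟩
      · have hs' : ((1 : ℝ) + 1) / 2 < s.re := by rw [e1]; exact hs
        rw [h3 hs']
        exact hG.2.1 s hs'
      · have hs' : ((1 : ℝ) + 1) / 2 < s.re := by rw [e1]; exact hs
        have h4 : F =ᶠ[𝓝 s] G := by
          filter_upwards [hopen.mem_nhds hs'] with z hz using h3 hz
        have h5 := hC s hs' (by rw [e1]; linarith)
        rw [h4.deriv_eq, h3 hs']
        rw [e1] at h5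
        exact h5
    · rintro ⟨h1, C, A, hC⟩
      refine ⟨F, ⟨hF.1.differentiableOn, fun s hs => h1 s (by rw [e1] at hs; exact hs), he⟩,
        C, A, fun s hs hs2 => ?_⟩
      rw [e1] at hs hs2 ⊢
      exact hC s hs (by linarith)
  have hfreq : ∀ (k : ℕ) (ε : ℝ), 0 < ε →
      ∃ᶠ x : ℝ in atTop, primePowerMean a b k x + r / (k + 1) * Real.log x < c + ε := by
    intro k ε hε
    have h := Pool.Agent.W411.NL.mz_freq_lower E hC hc2 k (show c < c + ε by linarith)
    rw [hcast, hM] at h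
    exact h
  refine ⟨r, c, hr, ?_, ?_, ?_, ?_, ?_, ?_, hfreq, ?_⟩
  · rw [e1] at hc1
    simpa using hc1
  · intro N ε B hN hB hB0 hs
    obtain ⟨a1, a2, a3⟩ := Pool.Agent.W411.NL.cfac_ld hN 1 hB hB0
    obtain ⟨γ, hγ, hd'⟩ := Pool.Agent.W411.NL.ld_const hm hn
    rw [e1, Complex.ofReal_one] at hγ hd' hc1
    have h1 := Pool.Agent.W411.NL.const_of_symm (c := 1) (ε := ε) hc1 hd' a1 a2 (by
      filter_upwards [hs] with s h
      have k1 : ∀ s, F s * Pool.Agent.W411.NL.cfac N 1 B s = completed N B F s := by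
        intro s
        unfold Pool.Agent.W411.NL.cfac completed
        ring
      rw [k1, k1, h]
      congr 2
      ring)
    rw [a3] at h1
    push_cast at h1 ⊢
    linear_combination -h1
  · have key := Pool.Agent.W411.NL.nonvanish_tfae E hC hm hn hc2
      (Int.natCast_nonneg r)
    simp only [hZ, hr0] at key
    have k1 := key.out 0 1
    have k2 := key.out 0 2
    have k3 := key.out 0 3
    have k4 := (key.out 0 4).trans (and_congr_right fun _ => hfull)
    have k1' := k1.trans (and_congr_right fun _ => hre _)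
    tfae_have 1 ↔ 2 := k1'
    tfae_have 1 ↔ 3 := k2
    tfae_have 1 ↔ 4 := k3
    tfae_have 1 ↔ 5 := k4
    tfae_finish
  · have key := Pool.Agent.W411.NL.main_tfae E hC hm hn hc2
    simp only [hM, hcast] at key
    have k1 := (key.out 0 1).trans (hre _)
    have k2 := key.out 0 2
    have k3 := key.out 0 3
    have k4 := (key.out 0 5).trans hfull
    tfae_have 1 ↔ 2 := k1
    tfae_have 1 ↔ 3 := k2
    tfae_have 1 ↔ 4 := k3
    tfae_have 1 ↔ 5 := k4
    tfae_finish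
  · rintro ⟨C, A, hCA⟩
    have hg : ∃ (C : ℝ) (A : ℕ), ∀ s : ℂ, ((1 : ℝ) + 1) / 2 < s.re → ‖F s‖ ≤ C * (1 + ‖s‖) ^ A :=
      ⟨C, A, fun s hs => hCA s (by rw [e1] at hs; exact hs)⟩
    have key := Pool.Agent.W411.NL.growth_f E hd he hm hn hc2 hg (f := primePowerMean a b)
      (fun k x => Pool.Agent.W263.MN.ZK_EQ hBs k x)
    have key2 := Pool.Agent.W411.NL.growth_nonvanish_f E hd he hm hn hc2 (Int.natCast_nonneg r) hg
      (f := primePowerMean a b) (fun k x => Pool.Agent.W263.MN.ZK_EQ hBs k x)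
    simp only [hr0] at key2
    simp only [hcast] at key
    have k0 := key.out 0 2
    have k1 := key.out 0 3
    have k2 := key.out 0 1
    rw [hRH] at k0 k1 k2
    have n1 := (key2.out 0 1)
    have n2 := (key2.out 0 2)
    have n3 := (key2.out 0 3)
    have hRH' : (F 1 ≠ 0 ∧ ∀ s : ℂ, ((1 : ℝ) + 1) / 2 < s.re → F s ≠ 0) ↔ F 1 ≠ 0 ∧ RH F :=
      and_congr_right fun _ => hRH
    rw [hRH'] at n1 n2 n3
    refine ⟨?_, ?_, ?_⟩
    · exact k0
    · tfae_have 1 ↔ 2 := n1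
      tfae_have 1 ↔ 3 := n2
      tfae_have 1 ↔ 4 := n3
      tfae_finish
    · have hlog : RH F ↔ ∃ C : ℝ, ∀ᶠ x : ℝ in atTop, -(C * Real.log x) ≤ primePowerMean a b 2 x := by
        constructor
        · intro h
          obtain ⟨C', hC'⟩ := k2.mp h
          refine ⟨|C'| + r / 3, ?_⟩
          filter_upwards [hC', Pool.Agent.W263.MN.one_le_log] with x h1 h2
          have h3 := (abs_le.mp h1).1
          have h4 := le_abs_self C'
          have h5 := abs_nonneg C'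
          nlinarith
        · rintro ⟨C', hC'⟩
          exact k1.mpr ⟨2, C', hC'⟩
      rw [← hlog, ← n1]
      constructor
      · rintro ⟨h1, h2⟩
        refine ⟨h1, ?_⟩
        rw [← Set.not_infinite, ← h2]
        exact ⟨fun h => h.1, fun h => ⟨h, h1⟩⟩
      · rintro ⟨h1, h2⟩
        refine ⟨h1, ?_⟩
        rw [← Set.not_infinite] at h2
        constructor
        · intro h3
          by_contra h4
          exact (h2.mpr h4).1 h3
        · intro h3
          by_contra h4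
          exact (h2.mp ⟨h4, h1⟩) h3
  · intro h0 k C
    have hr1 : 0 < (r : ℝ) := by
      have : r ≠ 0 := by
        intro h
        apply hr0.mp (by exact_mod_cast h)
        exact h0
      positivity
    have hk : (0 : ℝ) < r / (k + 1) := by positivity
    refine ((hfreq k 1 one_pos).and_eventually (Real.tendsto_log_atTop.eventually
      (eventually_ge_atTop ((|c| + 1 + |C|) / (r / (k + 1)))))).mono fun x hx => ?_
    obtain ⟨h2, h3⟩ := hx
    rw [div_le_iff₀ hk] at h3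
    have h5 := le_abs_self c
    have h6 := neg_abs_le C
    linarith
  · intro hne k ε hε
    have h := Pool.Agent.W411.NL.mz_freq_upper E hC hc2
      (fun s hs => hne s (by rw [e1] at hs; exact hs)) k (show c - ε < c by linarith)
    rw [hcast, hM] at h
    exact h

end Pool.Agent.Results.MP_8b7eba_nt.BoundedMeans
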