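import Pool.Agent.W263.LG.Value
import Pool.Agent.W263.LG.EQ

/-!
# The central value of `L(C, s)` and bounded means of the Birch and Swinnerton-Dyer products

Let `C : y² = x³ + a x + b` be an elliptic curve over `ℚ`, `a, b ∈ ℤ`, with entire `L`-function `F` (the
Euler product over the primes `p ∤ 2Δ`, as in the problem), let `P(t) = ∏_{p ≤ t} N_p / p` be the products
of Birch and Swinnerton-Dyer (`N_p` counts the points of the projective curve) and let

  `R_k(x) = ∑_{p ≤ x} (1 - log p / log x)^k log (N_p / p)`,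
  `M_k(x) = ∑_{p^j ≤ x} (1 - log p^j / log x)^k (α_p^j + β_p^j) / (j p^j)`.

So `R_0(x) = log P(x)`, and `R_1(x) = (log x)⁻¹ ∫_1^x log P(t) dt/t` is the logarithmic mean of `log P`;
`M_k` is the Riesz mean of order `k` of the Dirichlet series of `log L(C, 1)`.

Goldfeld showed that `P(x) → c ≠ 0` forces `L(C, 1) ≠ 0` and the Riemann hypothesis for `L(C, s)`.  Here
the convergence of `P` is replaced by an UPPER bound for the mean `R_1`, and this is also necessary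
(Part 2; the growth condition there holds for all `L(C, s)` by the functional equation).  In Part 1
nothing about the growth of `F` is assumed: an upper bound for one of the means `R_k` already implies
that `L(C, 1) ≠ 0` (so that `C(ℚ)` is finite, by the theorem of Kolyvagin), that there are no zeros with
`Re s > 1`, and that the means `M_k(x)` converge for large `k` to `log |L(C, 1)|`, with an error term
`O(1 / log x)`.  Part 3: on the Riemann hypothesis, `L(C, 1) = 0` if and only if `R_1(x) → ∞`.  Parts 4 and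
5 are unconditional.

The proof uses Hasse's bound, Landau's lemma, Tauberian theorems of Karamata's type, the theorem of
Borel and Caratheodory and Laplace inversion; everything is proved in the imported files.
-/

set_option autoImplicit false

namespace Pool.Agent.Results.MP_8b7eba_nt.CentralValue

open Pool.Agent.W263.BSD (pointCount GoodPrime IsLSeries order_finite)
open Pool.Agent.W263.MN Pool.Agent.W263.LG Filter Topology

/-- `F'/F` grows at most polynomially in `|s|` and `1/(Re s - 1)` in the strip `1 < Re s ≤ 2`. -/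
def LogDerivBound (F : ℂ → ℂ) : Prop :=
  ∃ (C : ℝ) (A : ℕ), ∀ s : ℂ, 1 < s.re → s.re ≤ 2 →
    ‖deriv F s / F s‖ ≤ C * ((1 + ‖s‖) / (s.re - 1)) ^ A

/-- **The central value and the means of the Birch and Swinnerton-Dyer products.** -/
theorem result (a b : ℤ) (hΔ : 4 * a ^ 3 + 27 * b ^ 2 ≠ 0) (F : ℂ → ℂ) (hF : IsLSeries a b F) :
    List.TFAE [
      ∃ (k : ℕ) (C : ℝ), ∀ᶠ x : ℝ in atTop, productMean a b k x ≤ C,
      ∃ (k : ℕ) (C : ℝ), ∀ᶠ x : ℝ in atTop, |productMean a b k x| ≤ C,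
      ∃ (k : ℕ) (L : ℝ), Tendsto (fun x : ℝ => logMean a b k x) atTop (𝓝 L),
      F 1 ≠ 0 ∧ ∃ (k : ℕ) (C : ℝ), ∀ᶠ x : ℝ in atTop,
        |logMean a b k x - Real.log ‖F 1‖| ≤ C / Real.log x,
      F 1 ≠ 0 ∧ (∀ s : ℂ, 1 < s.re → F s ≠ 0) ∧ LogDerivBound F] ∧
    ((∃ (C : ℝ) (A : ℕ), ∀ s : ℂ, 1 < s.re → ‖F s‖ ≤ C * (1 + ‖s‖) ^ A) →
      List.TFAE [
        F 1 ≠ 0 ∧ ∀ s : ℂ, 1 < s.re → F s ≠ 0,
        ∃ C : ℝ, ∀ᶠ x : ℝ in atTop, productMean a b 1 x ≤ C,
        ∃ C : ℝ, ∀ᶠ x : ℝ in atTop, |productMean a b 1 x| ≤ C,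
        F 1 ≠ 0 ∧ ∃ C : ℝ, ∀ᶠ x : ℝ in atTop,
          |logMean a b 2 x - Real.log ‖F 1‖| ≤ C / Real.log x] ∧
      ((∀ s : ℂ, 1 < s.re → F s ≠ 0) →
        (F 1 = 0 ↔ Tendsto (fun x : ℝ => productMean a b 1 x) atTop atTop))) ∧
    (F 1 = 0 → ∀ (k : ℕ) (σ : ℝ), σ < 1 →
      ∃ᶠ x : ℝ in atTop, σ * Real.log (Real.log x) < productMean a b k x) ∧
    (F 1 ≠ 0 → ∀ (k : ℕ) (ε : ℝ), 0 < ε →
      (∃ᶠ x : ℝ in atTop, logMean a b k x < Real.log ‖F 1‖ + ε) ∧
      ((∀ s : ℝ, 1 < s → F s ≠ 0) →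
        ∃ᶠ x : ℝ in atTop, Real.log ‖F 1‖ - ε < logMean a b k x)) := by
  obtain ⟨r, hr⟩ := order_finite hF
  have hfin := bad_finite hΔ
  obtain ⟨Bs, hBs⟩ : ∃ Bs : Finset Nat.Primes, ∀ p : Nat.Primes,
      p ∈ Bs ↔ ¬ GoodPrime a b (p : ℕ) := ⟨hfin.toFinset, fun p => by
    rw [Set.Finite.mem_toFinset]; rfl⟩
  have E := eq_tdata hBs
  have e1 : ((1 : ℝ) + 1) / 2 = 1 := by norm_num
  have e2 : ((1 : ℝ) + 2) / 2 = 3 / 2 := by norm_num
  have ec : ((((1 : ℝ) + 1) / 2 : ℝ) : ℂ) = 1 := by rw [e1, Complex.ofReal_one]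
  have he : ∀ s : ℂ, ((1 : ℝ) + 2) / 2 < s.re → F s = Pool.Agent.W263.EP.LF
      Pool.Agent.W263.EP.sysQ (Bs : Set Nat.Primes) (Pool.Agent.W263.EP.abTr (AA a b)) s := by
    intro s hs
    rw [e2] at hs
    rw [LFB_EQ hBs hF hs]
    exact LFB_one (S := Pool.Agent.W263.EP.sysQ) (Bs := Bs) s
  have hc : Pool.Agent.W263.EP.IsCont Pool.Agent.W263.EP.sysQ (Bs : Set Nat.Primes)
      (Pool.Agent.W263.EP.abTr (AA a b)) 1 F :=
    ⟨fun s _ => hF.1.analyticAt _, fun s hs => he s (by simpa using hs)⟩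
  have hA : AnalyticAt ℂ F ((((1 : ℝ) + 1) / 2 : ℝ) : ℂ) := hF.1.analyticAt _
  have hr' : analyticOrderAt F ((((1 : ℝ) + 1) / 2 : ℝ) : ℂ) = r := by rw [ec]; exact hr
  have hW := Pool.Agent.W263.EP.wOrd_of_mero hA.meromorphicAt (n := (r : ℤ)) (by
    rw [hA.meromorphicOrderAt_eq, hr']; rfl)
  have hM : ∀ k x, logMean a b k x = MK Pool.Agent.W263.EP.sysQ (Bs : Set Nat.Primes)
      (Pool.Agent.W263.EP.abTr (AA a b)) 1 k x := fun k x => (MK_EQ hBs k x).symm
  have hR : ∀ k x, productMean a b k x = Pool.Agent.W263.EP.RK Pool.Agent.W263.EP.sysQ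
      (Bs : Set Nat.Primes) (Pool.Agent.W263.EP.abTr (AA a b)) 1 k x :=
    fun k x => (RK_EQ hBs k x).symm
  -- the continuation
  have hfull : (∃ G : ℂ → ℂ, Pool.Agent.W263.EP.IsFull Pool.Agent.W263.EP.sysQ
      (Bs : Set Nat.Primes) (Pool.Agent.W263.EP.abTr (AA a b)) 1 G ∧ LDB (((1 : ℝ) + 1) / 2) G) ↔
      (∀ s : ℂ, 1 < s.re → F s ≠ 0) ∧ LogDerivBound F := by
    constructor
    · rintro ⟨G, hG, C, A, hC⟩
      have hopen : IsOpen {s : ℂ | ((1 : ℝ) + 1) / 2 < s.re} := Pool.Agent.W263.BSD.isOpen_half _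
      have h1 : AnalyticOnNhd ℂ F {s : ℂ | ((1 : ℝ) + 1) / 2 < s.re} := fun s _ =>
        hF.1.analyticAt s
      have h2 : AnalyticOnNhd ℂ G {s : ℂ | ((1 : ℝ) + 1) / 2 < s.re} := hG.1.analyticOnNhd hopen
      have h3 := h1.eqOn_of_preconnected_of_eventuallyEq h2 (Pool.Agent.W263.BSD.preconn_half _)
        (show ((2 : ℝ) : ℂ) ∈ {s : ℂ | ((1 : ℝ) + 1) / 2 < s.re} by
          show ((1 : ℝ) + 1) / 2 < ((2 : ℝ) : ℂ).re
          rw [Complex.ofReal_re]; norm_num) (by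
          filter_upwards [(Pool.Agent.W263.BSD.isOpen_half (((1 : ℝ) + 2) / 2)).mem_nhds
            (show ((1 : ℝ) + 2) / 2 < ((2 : ℝ) : ℂ).re by
              rw [Complex.ofReal_re]; norm_num)] with z hz
          rw [he z hz, hG.2.2 z hz])
      refine ⟨fun s hs => ?_, C, A, fun s hs hs2 => ?_⟩
      · have hs' : ((1 : ℝ) + 1) / 2 < s.re := by rw [e1]; exact hs
        rw [h3 hs']
        exact hG.2.1 s hs'
      · have hs' : ((1 : ℝ) + 1) / 2 < s.re := by rw [e1]; exact hs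
        have h4 : F =ᶠ[𝓝 s] G := by
          filter_upwards [hopen.mem_nhds hs'] with z hz using h3 hz
        have h5 := hC s hs' (by rw [e1]; linarith)
        rw [h4.deriv_eq, h3 hs']
        rw [e1] at h5
        exact h5
    · rintro ⟨h1, C, A, hC⟩
      refine ⟨F, ⟨hF.1.differentiableOn, fun s hs => h1 s (by rw [e1] at hs; exact hs), he⟩,
        C, A, fun s hs hs2 => ?_⟩
      rw [e1] at hs hs2 ⊢
      exact hC s hs (by linarith)
  refine ⟨?_, ?_, ?_, ?_⟩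
  · have key := value_means E hc hA hr'
    simp only [hM, hR]
    rw [ec] at key
    have k1 : (∃ (k : ℕ) (C : ℝ), ∀ᶠ x : ℝ in atTop, Pool.Agent.W263.EP.RK
        Pool.Agent.W263.EP.sysQ (Bs : Set Nat.Primes) (Pool.Agent.W263.EP.abTr (AA a b)) 1 k x ≤ C) ↔
        ∃ (k : ℕ) (C : ℝ), ∀ᶠ x : ℝ in atTop, -C ≤ MK Pool.Agent.W263.EP.sysQ
          (Bs : Set Nat.Primes) (Pool.Agent.W263.EP.abTr (AA a b)) 1 k x :=
      exists_congr fun k => RK_le_iff E
    have k2 : (∃ (k : ℕ) (C : ℝ), ∀ᶠ x : ℝ in atTop, |Pool.Agent.W263.EP.RK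
        Pool.Agent.W263.EP.sysQ (Bs : Set Nat.Primes) (Pool.Agent.W263.EP.abTr (AA a b)) 1 k x| ≤ C) ↔
        ∃ (k : ℕ) (C : ℝ), ∀ᶠ x : ℝ in atTop, |MK Pool.Agent.W263.EP.sysQ
          (Bs : Set Nat.Primes) (Pool.Agent.W263.EP.abTr (AA a b)) 1 k x| ≤ C :=
      exists_congr fun k => RK_abs_iff E
    have k3 := key.out 0 1
    have k4 := key.out 0 2
    have k5 := key.out 0 4
    have k6 := (key.out 0 6).trans (and_congr_right fun _ => hfull)
    tfae_have 1 ↔ 2 := k1.trans (k3.trans k2.symm)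
    tfae_have 1 ↔ 3 := k1.trans k4
    tfae_have 1 ↔ 4 := k1.trans k5
    tfae_have 1 ↔ 5 := k1.trans k6
    tfae_finish
  · rintro ⟨C, A, hC⟩
    have hg : ∃ (C : ℝ) (A : ℕ), ∀ s : ℂ, ((1 : ℝ) + 1) / 2 < s.re → ‖F s‖ ≤ C * (1 + ‖s‖) ^ A :=
      ⟨C, A, fun s hs => hC s (by rw [e1] at hs; exact hs)⟩
    have key := value_growth E (fun s _ => hF.1 s) he hA hr' hg
    simp only [hM, hR]
    rw [ec, e1] at key
    have k1 := RK_le_iff E (k := 1)
    have k2 := RK_abs_iff E (k := 1)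
    have k3 := key.out 0 1
    have k4 := key.out 0 2
    have k5 := key.out 0 4
    refine ⟨?_, fun hRH => ⟨fun h0 => ?_, fun h => ?_⟩⟩
    · tfae_have 1 ↔ 2 := k3.trans k1.symm
      tfae_have 1 ↔ 3 := k4.trans k2.symm
      tfae_have 1 ↔ 4 := k5
      tfae_finish
    · exact RK_atTop E (fun s _ => hF.1 s) he hA hr' hg (by rw [ec]; exact h0)
        (fun s hs => hRH s (by rw [e1] at hs; exact hs))
    · by_contra h0
      obtain ⟨C', h1⟩ := (k3.trans k1.symm).mp ⟨h0, hRH⟩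
      obtain ⟨x, h2, h3⟩ := (h1.and (h.eventually (eventually_gt_atTop C'))).exists
      exact absurd h3 (not_lt.mpr h2)
  · intro h0 k σ hσ
    simp only [hR]
    have hr0 : r ≠ 0 := by
      rintro rfl
      exact (hA.analyticOrderAt_eq_zero).mp (by rw [hr']; rfl) (by rw [ec]; exact h0)
    have hr1 : (1 : ℝ) ≤ ((r : ℤ) : ℝ) := by
      have := Nat.one_le_iff_ne_zero.mpr hr0
      exact_mod_cast this
    exact Pool.Agent.W263.EP.means_upper E (B := fun _ => 1) (one_ne _) (isContB_one.mpr hc) hW k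
      (by linarith)
  · intro h0 k ε hε
    simp only [hM]
    have hL := clim_of_ne hA.continuousAt (by rw [ec]; exact h0)
    have h1 := mk_freq_lower E hc hL k hε
    simp only [mt_zero, ec] at h1
    refine ⟨h1.mono fun x hx => by linarith, fun hne => ?_⟩
    have h2 := mk_freq_upper E hc hL (fun s hs => hne s (by rw [e1] at hs; exact hs)) k hε
    simp only [mt_zero, ec] at h2
    exact h2.mono fun x hx => by linarith

end Pool.Agent.Results.MP_8b7eba_nt.CentralValue
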